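import Pool.Agent.Y8.ED.Defs
import Pool.Agent.Y907.EJ.End

/-!
# Project ED (helper8): from the damped solution on `[0, T)` to the Leray-Hopf solution on `[0, T]`
(helper154, after the file of helper907 and helper303 for the project EJ)
-/

open Set Filter Topology MeasureTheory Metric

set_option autoImplicit false

namespace Pool.Agent.Y154.ED

open Pool.Agent.Y5 (E3)
open Pool.Agent.Y303.SK
open Pool.Agent.Y303.EJ
open Pool.Agent.Y8.DI (DissD SolL)
open Pool.Agent.Y8.ED (dsp LHL skew0 S_ENDD)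
open Pool.Agent.Y907.EJ (ipr_cs coef_bd lip_end mon_end dirf_nonneg)

theorem gf_gr' (u w : E3 → E3) : gf (gr u) w = dirf u w := rfl

theorem gg_gr' (u : E3 → E3) : gg (gr u) = dirf u u := by
  unfold gg dirf gr
  refine integral_congr_ae (Eventually.of_forall fun x => ?_)
  exact Finset.sum_congr rfl fun i _ => (real_inner_self_eq_norm_sq _).symm

theorem lin_cv' (A : E3 →L[ℝ] E3) (y : E3) : ∑ i : Fin 3, y i • A (cv i) = A y := by
  have h1 : y = ∑ i : Fin 3, y i • cv i := by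
    ext j
    simp [cv, Pi.single_apply]
  conv_rhs => rw [h1, map_sum]
  exact Finset.sum_congr rfl fun i _ => (map_smul _ _ _).symm

theorem av_gr' (v u w : E3 → E3) : av v (gr u) w = adv v u w := by
  unfold av adv gr
  refine integral_congr_ae (Eventually.of_forall fun x => ?_)
  simp only
  rw [lin_cv']

/-- the coefficients have bounded derivatives -/
theorem coef_bdL {Ω : Set E3} (ν : ℝ) {ι : Type} {e : ι → E3 → E3} {lam : ι → ℝ}
    (hb : Bornology.IsBounded Ω) (hS : DissD Ω e lam) (i : ι) :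
    ∃ C : ℝ, 0 ≤ C ∧ ∀ u : E3 → E3, ContDiff ℝ 2 u → (∀ x ∉ Ω, u x = 0) →
      (∀ x ∈ Ω, dvg u x = 0) → InH Ω u → ipr u u ≤ 1 →
      |-(lam i * ipr u (e i)) - ν * dirf u (e i) - adv u u (e i)| ≤ C := by
  obtain ⟨C, hC0, hC⟩ := coef_bd ν hb (skew0 hS) i
  refine ⟨|lam i| + C, by positivity, fun u hu hz hd hH hn => ?_⟩
  have h0 := hC u hu hz hd hH hn
  rw [zero_mul, zero_sub] at h0
  have h1 : |ipr u (e i)| ≤ 1 := by
    have := ipr_cs hH.1 (Pool.Agent.Y500.SK.CS.memLp (hS.field i)) (a := 1) (b := 1)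
      zero_le_one zero_le_one (by rw [one_pow]; exact hn)
      (by rw [one_pow]; exact ((hS.orth _ _).1 rfl).le)
    rwa [mul_one] at this
  have h2 : |-(lam i * ipr u (e i))| ≤ |lam i| := by
    rw [abs_neg, abs_mul]
    calc |lam i| * |ipr u (e i)| ≤ |lam i| * 1 := by gcongr
      _ = |lam i| := mul_one _
  calc |-(lam i * ipr u (e i)) - ν * dirf u (e i) - adv u u (e i)|
      = |-(lam i * ipr u (e i)) + (-(ν * dirf u (e i)) - adv u u (e i))| := by
        congr 1
        ring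
    _ ≤ |-(lam i * ipr u (e i))| + |-(ν * dirf u (e i)) - adv u u (e i)| := abs_add_le _ _
    _ ≤ |lam i| + C := add_le_add h2 h0

theorem dsp_nonneg {Ω : Set E3} {ι : Type} {e : ι → E3 → E3} {lam : ι → ℝ}
    (hS : DissD Ω e lam) (v : E3 → E3) : 0 ≤ dsp e lam v := by
  unfold dsp
  exact tsum_nonneg fun i => mul_nonneg (hS.nonneg i) (sq_nonneg _)

theorem t_ENDD (hrf : S_RF) (hwc : S_WC) : S_ENDD := by
  intro Ω ν ι e lam T η u y hΩ hb hν hT hι hS hu hu2 hH1 hE hE0 hEη hy hys hyη hη0 hη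
  have hSk := skew0 hS
  have hz : (0 : ℝ) ∈ Ico 0 T := ⟨le_rfl, hT⟩
  have hdn : ∀ v : E3 → E3, 0 ≤ ν * dirf v v + dsp e lam v := fun v =>
    add_nonneg (mul_nonneg hν.le (dirf_nonneg v)) (dsp_nonneg hS v)
  -- the energy
  obtain ⟨hdi, hen, hent, hle⟩ := mon_end (E := fun t => ipr (u t) (u t))
    (d := fun t => ν * dirf (u t) (u t) + dsp e lam (u t)) (c := 2) (η := η) hT (by norm_num)
    (fun t ht => (hE t ht).2) (fun t _ => hdn _) hE0 hEη
  -- the coefficients
  have hco : ∀ i, ∃ g : ℝ → ℝ, Continuous g ∧ (∀ t ∈ Ico 0 T, g t = ipr (u t) (e i)) ∧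
      IntegrableOn (fun τ => -(lam i * ipr (u τ) (e i)) - ν * dirf (u τ) (e i) -
        adv (u τ) (u τ) (e i)) (Ioo 0 T) ∧
      ∀ t ∈ Icc 0 T, g t = g 0 + ∫ τ in (0 : ℝ)..t, (-(lam i * ipr (u τ) (e i)) -
        ν * dirf (u τ) (e i) - adv (u τ) (u τ) (e i)) := by
    intro i
    obtain ⟨C, hC0, hC⟩ := coef_bdL ν hb hS i
    exact lip_end hC0 (hu.eqn i) fun t ht => hC (u t) (hu2 t ht) (hu.zero t ht) (hu.dv t ht)
      (hu.inH t ht) (hle t ht)
  choose g hgc hgu hgi hge using hco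
  -- the two parts of the dissipation
  have hdm : AEStronglyMeasurable (fun t => dsp e lam (u t)) (volume.restrict (Ioo 0 T)) := by
    refine aestronglyMeasurable_of_tendsto_ae (atTop : Filter (Finset ι))
      (f := fun F t => ∑ i ∈ F, lam i * g i t ^ 2) (fun F => ?_) ?_
    · exact (continuous_finsetSum F fun i _ =>
        continuous_const.mul ((hgc i).pow 2)).aestronglyMeasurable
    · refine (ae_restrict_iff' measurableSet_Ioo).2 (Eventually.of_forall fun t ht => ?_)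
      have ht' : t ∈ Ico 0 T := ⟨ht.1.le, ht.2⟩
      have h1 : HasSum (fun i => lam i * ipr (u t) (e i) ^ 2) (dsp e lam (u t)) :=
        (hE t ht').1.hasSum
      have h2 : (fun i => lam i * ipr (u t) (e i) ^ 2) = fun i => lam i * g i t ^ 2 := by
        funext i
        rw [hgu i t ht']
      rw [h2] at h1
      exact h1
  have hds : IntegrableOn (fun t => dsp e lam (u t)) (Ioo 0 T) volume := by
    refine Integrable.mono' hdi hdm (Eventually.of_forall fun t => ?_)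
    rw [Real.norm_eq_abs, abs_of_nonneg (dsp_nonneg hS _)]
    exact le_add_of_nonneg_left (mul_nonneg hν.le (dirf_nonneg _))
  have hdg : IntegrableOn (fun t => dirf (u t) (u t)) (Ioo 0 T) volume := by
    have h1 := (hdi.sub hds).const_mul ν⁻¹
    refine h1.congr (Eventually.of_forall fun t => ?_)
    show ν⁻¹ * (ν * dirf (u t) (u t) + dsp e lam (u t) - dsp e lam (u t)) = dirf (u t) (u t)
    rw [add_sub_cancel_right, inv_mul_cancel_left₀ hν.ne']
  refine ⟨hds, hdg, ?_⟩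
  have hgT : ∀ i, |g i T| ≤ y i := by
    intro i
    obtain ⟨r, hr, hry⟩ := hy i
    have h1 : Tendsto (fun t => |g i t|) (𝓝[<] T) (𝓝 |g i T|) :=
      ((hgc i).abs.tendsto T).mono_left nhdsWithin_le_nhds
    refine le_of_tendsto h1 ?_
    filter_upwards [Ioo_mem_nhdsLT hr.2] with t ht
    rw [hgu i t ⟨hr.1.trans ht.1.le, ht.2⟩]
    exact hry t ⟨ht.1.le, ht.2⟩
  have hsq : ∀ i, g i T ^ 2 ≤ y i ^ 2 := fun i => by
    rw [← sq_abs (g i T)]
    exact pow_le_pow_left₀ (abs_nonneg _) (hgT i) 2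
  have hsum : Summable (fun i => g i T ^ 2) :=
    Summable.of_nonneg_of_le (fun i => sq_nonneg _) hsq hys
  obtain ⟨w, hwH, hwe, hww⟩ := hrf Ω ι e id (fun _ => 0) (fun i => g i T) hΩ hb hSk hι hsum
  have hwη : ipr w w ≤ η := by
    rw [hww]
    exact (hsum.tsum_le_tsum hsq hys).trans hyη
  obtain ⟨v, hv⟩ : ∃ v : ℝ → E3 → E3, v = fun t => if t < T then u t else w := ⟨_, rfl⟩
  have hvu : ∀ t, t < T → v t = u t := fun t ht => by rw [hv]; exact if_pos ht
  have hvT : v T = w := by rw [hv]; exact if_neg (lt_irrefl T)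
  have hvH : ∀ t ∈ Icc 0 T, InH Ω (v t) := by
    intro t ht
    rcases lt_or_eq_of_le ht.2 with h | h
    · rw [hvu t h]
      exact hu.inH t ⟨ht.1, h⟩
    · rw [h, hvT]
      exact hwH
  have hvn : ∀ t ∈ Icc 0 T, ipr (v t) (v t) ≤ 1 := by
    intro t ht
    rcases lt_or_eq_of_le ht.2 with h | h
    · rw [hvu t h]
      exact hle t ⟨ht.1, h⟩
    · rw [h, hvT]
      linarith
  have hvg : ∀ i, ∀ t ∈ Icc 0 T, ipr (v t) (e i) = g i t := by
    intro i t ht
    rcases lt_or_eq_of_le ht.2 with h | h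
    · rw [hvu t h, hgu i t ⟨ht.1, h⟩]
    · rw [h, hvT, hwe]
  have hIcongr : ∀ (Φ : (E3 → E3) → ℝ) (t : ℝ), t ∈ Icc 0 T →
      ∫ τ in (0 : ℝ)..t, Φ (v τ) = ∫ τ in (0 : ℝ)..t, Φ (u τ) := by
    intro Φ t ht
    rw [intervalIntegral.integral_of_le ht.1, intervalIntegral.integral_of_le ht.1,
      integral_Ioc_eq_integral_Ioo, integral_Ioc_eq_integral_Ioo]
    refine setIntegral_congr_fun measurableSet_Ioo fun τ hτ => ?_
    rw [hvu τ (hτ.2.trans_le ht.2)]
  have hend : ipr (v T) (v T) +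
      2 * (∫ τ in (0 : ℝ)..T, (ν * gg (gr (v τ)) + dsp e lam (v τ))) ≤ 2 * η := by
    rw [hvT, hIcongr (fun f => ν * gg (gr f) + dsp e lam f) T ⟨hT.le, le_rfl⟩]
    simp only [gg_gr']
    linarith
  have heq : ∀ t ∈ Ico 0 T, ipr (v t) (v t) +
      2 * (∫ τ in (0 : ℝ)..t, (ν * gg (gr (v τ)) + dsp e lam (v τ))) = 1 := by
    intro t ht
    rw [hvu t ht.2, hIcongr (fun f => ν * gg (gr f) + dsp e lam f) t ⟨ht.1, ht.2.le⟩]
    simp only [gg_gr']
    exact hen t ht
  refine ⟨v, fun t ht => hvu t ht.2, ⟨hvH, ?_, ?_, ?_, ?_, ?_, ?_, ?_, ?_⟩, heq, hend⟩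
  · refine (hwc Ω ι e id (fun _ => 0) hΩ hb hSk hι).2 T 1 v
      (fun t ht => ⟨hvH t ht, hvn t ht⟩) fun i => ?_
    exact (hgc i).continuousOn.congr (hvg i)
  · refine (ae_restrict_iff' measurableSet_Ioo).2 (Eventually.of_forall fun t ht => ?_)
    show H1w Ω (v t) (gr (v t))
    rw [hvu t ht.2]
    exact hH1 t ⟨ht.1.le, ht.2⟩
  · refine hdg.congr_fun (fun t ht => ?_) measurableSet_Ioo
    show dirf (u t) (u t) = gg (gr (v t))
    rw [gg_gr', hvu t ht.2]
  · refine (ae_restrict_iff' measurableSet_Ioo).2 (Eventually.of_forall fun t ht => ?_)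
    rw [hvu t ht.2]
    exact (hE t ⟨ht.1.le, ht.2⟩).1
  · refine hds.congr_fun (fun t ht => ?_) measurableSet_Ioo
    show dsp e lam (u t) = dsp e lam (v t)
    rw [hvu t ht.2]
  · intro i
    refine (hgi i).congr_fun (fun t ht => ?_) measurableSet_Ioo
    simp only [gf_gr', av_gr']
    rw [hvu t ht.2]
  · intro i t ht
    simp only [gf_gr', av_gr']
    rw [hvg i t ht, hvg i 0 ⟨le_rfl, hT.le⟩,
      hIcongr (fun f => -(lam i * ipr f (e i)) - ν * dirf f (e i) - adv f f (e i)) t ht]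
    exact hge i t ht
  · intro t ht
    rw [hvu 0 hT, hE0]
    rcases lt_or_eq_of_le ht.2 with h | h
    · exact (heq t ⟨ht.1, h⟩).le
    · rw [h]
      linarith

end Pool.Agent.Y154.ED
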